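import Pool.Agent.N855.P15.Par
import Pool.Agent.N969.P15.Defs

/-!
# The parity condition in the form of helper877 and helper969 (project P15, helper855)
-/

set_option autoImplicit false

open Finset

namespace Pool.Agent.N855.P15

theorem Qc_iff {n : ℕ} (hn : n ≠ 0) : Pool.Agent.N969.P15.Qc n ↔ Qj n := by
  unfold Pool.Agent.N969.P15.Qc Qj
  constructor
  · intro h b c hbc h1 h2
    exact h b c hbc (fun p hp => h1 p (Nat.prime_of_mem_primeFactors hp)
      (Nat.dvd_of_mem_primeFactors hp)) (fun p hp => h2 p (Nat.prime_of_mem_primeFactors hp)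
      (Nat.dvd_of_mem_primeFactors hp))
  · intro h b c hbc h1 h2
    have hb : b ≠ 0 := fun h0 => hn (by rw [← hbc, h0, zero_mul])
    have hc : c ≠ 0 := fun h0 => hn (by rw [← hbc, h0, mul_zero])
    exact h b c hbc (fun p hp hpc => h1 p (Nat.mem_primeFactors.2 ⟨hp, hpc, hc⟩))
      (fun p hp hpb => h2 p (Nat.mem_primeFactors.2 ⟨hp, hpb, hb⟩))

theorem jac_neg5 {n : ℕ} (h4 : n % 4 = 3) (h5 : n % 5 = 2 ∨ n % 5 = 3) : jacobiSym (-5) n = 1 := by
  have hodd : Odd n := by rw [Nat.odd_iff]; omega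
  have e : (-5 : ℤ) = -1 * 5 := by norm_num
  rw [e, jacobiSym.mul_left, jacobiSym.at_neg_one hodd, ZMod.χ₄_nat_three_mod_four h4]
  have h1 : jacobiSym ((5 : ℕ) : ℤ) n = jacobiSym (n : ℤ) 5 :=
    jacobiSym.quadratic_reciprocity_one_mod_four (by norm_num) hodd
  have h2 : jacobiSym (n : ℤ) 5 = -1 := by
    rw [jacobiSym.mod_left]
    rcases h5 with h | h
    · have : (n : ℤ) % ((5 : ℕ) : ℤ) = 2 := by omega
      rw [this]
      decide +kernel
    · have : (n : ℤ) % ((5 : ℕ) : ℤ) = 3 := by omega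
      rw [this]
      decide +kernel
  have h3 : jacobiSym (5 : ℤ) n = -1 := by
    have : ((5 : ℕ) : ℤ) = 5 := rfl
    rw [← this, h1, h2]
  rw [h3]
  norm_num

/-- **(R), second half** in the form agreed with helper877 -/
theorem aa5 {n : ℕ} (hn : Squarefree n) (h4 : n % 4 = 3) (h5 : n % 5 = 2 ∨ n % 5 = 3) :
    Odd (n.divisors.filter fun r => r * r < n ∧
      (∀ p ∈ r.primeFactors, jacobiSym (-5 * ((n / r : ℕ) : ℤ)) p = 1) ∧
      (∀ p ∈ (n / r).primeFactors, jacobiSym (-5 * (r : ℤ)) p = 1)).card ↔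
    Pool.Agent.N969.P15.Qc n := by
  classical
  have hd5 : ¬ 5 ∣ n := by omega
  rw [Qc_iff hn.ne_zero, ← par hn h4 hd5 (jac_neg5 h4 h5)]
  have h1 := card_amb h4
  rw [card_DD hn h4, ZMod.natCast_eq_natCast_iff'] at h1
  rw [Nat.odd_iff, Nat.odd_iff, h1]
  have h2 : (n.divisors.filter fun r => r * r < n ∧
      (∀ p ∈ r.primeFactors, jacobiSym (-5 * ((n / r : ℕ) : ℤ)) p = 1) ∧
      (∀ p ∈ (n / r).primeFactors, jacobiSym (-5 * (r : ℤ)) p = 1)) = DD n := by
    unfold DD
    apply filter_congr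
    intro r hr
    rw [and_comm (b := r * r < n)]
    refine and_congr_right fun _ => ?_
    obtain ⟨E, hE⟩ := Nat.dvd_of_mem_divisors hr
    have hr0 : 0 < r := Nat.pos_of_ne_zero fun h0 => hn.ne_zero (by rw [hE, h0, zero_mul])
    have hE0 : E ≠ 0 := fun h0 => hn.ne_zero (by rw [hE, h0, mul_zero])
    have hE' : n / r = E := Nat.div_eq_of_eq_mul_right hr0 hE
    rw [hE']
    have hdE : ∀ p ∈ n.primeFactors, (p ∣ r ∧ ¬ p ∣ E) ∨ (¬ p ∣ r ∧ p ∣ E) := by
      intro p hp
      have hpp := Nat.prime_of_mem_primeFactors hp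
      have hpn := Nat.dvd_of_mem_primeFactors hp
      by_cases h1 : p ∣ r
      · left
        refine ⟨h1, fun h2 => ?_⟩
        have h7 : p * p ∣ n := by
          rw [hE]
          exact mul_dvd_mul h1 h2
        exact hpp.one_lt.ne' (Nat.isUnit_iff.1 (hn p h7))
      · right
        refine ⟨h1, ?_⟩
        rw [hE] at hpn
        exact ((Nat.Prime.dvd_mul hpp).1 hpn).resolve_left h1
    have hs : ∀ (x : ℕ) (p : ℕ), p.Prime → p ∣ n → ¬ p ∣ x →
        (jacobiSym (-5 * (x : ℤ)) p = 1 ↔ jacobiSym (x : ℤ) p = jacobiSym (-5) p) := by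
      intro x p hp hpn hpx
      rw [jacobiSym.mul_left]
      have g1 : (-5 : ℤ).gcd p = 1 := by
        change Nat.gcd 5 p = 1
        refine (Nat.coprime_primes Nat.prime_five hp).2 ?_
        intro h
        exact hd5 (h ▸ hpn)
      have g2 : (x : ℤ).gcd p = 1 := by
        rw [Int.gcd_natCast_natCast]
        exact ((Nat.Prime.coprime_iff_not_dvd hp).2 hpx).symm
      rcases jacobiSym.eq_one_or_neg_one g1 with k1 | k1 <;>
        rcases jacobiSym.eq_one_or_neg_one g2 with k2 | k2 <;> rw [k1, k2] <;> norm_num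
    constructor
    · rintro ⟨a1, a2⟩ p hp
      have hpp := Nat.prime_of_mem_primeFactors hp
      have hpn := Nat.dvd_of_mem_primeFactors hp
      rw [hE']
      rcases hdE p hp with ⟨b1, b2⟩ | ⟨b1, b2⟩
      · rw [if_pos b1]
        exact (hs E p hpp hpn b2).1 (a1 p (Nat.mem_primeFactors.2 ⟨hpp, b1, hr0.ne'⟩))
      · rw [if_neg b1]
        exact (hs r p hpp hpn b1).1 (a2 p (Nat.mem_primeFactors.2 ⟨hpp, b2, hE0⟩))
    · intro hc
      constructor
      · intro p hp
        have hpp := Nat.prime_of_mem_primeFactors hp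
        have b1 := Nat.dvd_of_mem_primeFactors hp
        have hpn : p ∣ n := b1.trans ⟨E, hE⟩
        have hp' : p ∈ n.primeFactors := Nat.mem_primeFactors.2 ⟨hpp, hpn, hn.ne_zero⟩
        have b2 : ¬ p ∣ E := by
          rcases hdE p hp' with h | h
          · exact h.2
          · exact absurd b1 h.1
        have := hc p hp'
        rw [if_pos b1, hE'] at this
        exact (hs E p hpp hpn b2).2 this
      · intro p hp
        have hpp := Nat.prime_of_mem_primeFactors hp
        have b2 := Nat.dvd_of_mem_primeFactors hp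
        have hpn : p ∣ n := b2.trans ⟨r, by rw [hE, mul_comm]⟩
        have hp' : p ∈ n.primeFactors := Nat.mem_primeFactors.2 ⟨hpp, hpn, hn.ne_zero⟩
        have b1 : ¬ p ∣ r := by
          rcases hdE p hp' with h | h
          · exact absurd b2 h.2
          · exact h.1
        have := hc p hp'
        rw [if_neg b1] at this
        exact (hs r p hpp hpn b1).2 this
  have h3 : (n.divisors.filter fun r => r * r < n ∧
      (∀ p ∈ r.primeFactors, jacobiSym (-5 * ((n / r : ℕ) : ℤ)) p = 1) ∧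
      (∀ p ∈ (n / r).primeFactors, jacobiSym (-5 * (r : ℤ)) p = 1)).card = (DD n).card := by
    rw [← h2]
  rw [h3]

end Pool.Agent.N855.P15
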