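import Pool.Agent.N855.P15.Lin

/-!
# The divisors of `n` with prescribed symbols (project P15, helper855)

`n` is squarefree, `3` modulo `4`, prime to `5`, with `(-5/n) = 1`.  The divisors `d` of `n` such that
`(d/p) = (-5/p)` for the primes `p ∣ n / d` and `((n/d)/p) = (-5/p)` for the primes `p ∣ d` are `2` modulo `4`
in number exactly if `1` and `n` are the only divisors `d` with `(d/p) = 1` for `p ∣ n/d`, `((n/d)/p) = 1` for
`p ∣ d`.
-/

set_option autoImplicit false

open Finset

namespace Pool.Agent.N855.P15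

/-- the sign of an element of the field with two elements -/
def sg (a : ZMod 2) : ℤ := if a = 0 then 1 else -1

theorem sg_add (a b : ZMod 2) : sg (a + b) = sg a * sg b := by revert a b; decide

theorem sg_inj {a b : ZMod 2} (h : sg a = sg b) : a = b := by revert a b; decide

theorem sg_sum {ι : Type} (s : Finset ι) (f : ι → ZMod 2) :
    sg (∑ i ∈ s, f i) = ∏ i ∈ s, sg (f i) := by
  classical
  induction s using Finset.induction_on with
  | empty => rfl
  | insert a s ha ih => rw [sum_insert ha, prod_insert ha, sg_add, ih]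

theorem sg_nat (m : ℕ) : sg (m : ZMod 2) = (-1) ^ m := by
  induction m with
  | zero => rfl
  | succ m ih =>
    rw [Nat.cast_succ, sg_add, ih, pow_succ]
    rfl

/-- the additive symbol -/
def sy (a : ℤ) (p : ℕ) : ZMod 2 := if jacobiSym a p = -1 then 1 else 0

theorem sg_sy {a : ℤ} {p : ℕ} (h : a.gcd p = 1) : sg (sy a p) = jacobiSym a p := by
  unfold sy
  rcases jacobiSym.eq_one_or_neg_one h with h | h
  · rw [h]; rfl
  · rw [h]; rfl

theorem jac_prod {ι : Type} (s : Finset ι) (f : ι → ℤ) (p : ℕ) :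
    jacobiSym (∏ i ∈ s, f i) p = ∏ i ∈ s, jacobiSym (f i) p := by
  classical
  induction s using Finset.induction_on with
  | empty => simp [jacobiSym.one_left]
  | insert a s ha ih => rw [prod_insert ha, prod_insert ha, jacobiSym.mul_left, ih]

theorem jac_prod_right (a : ℤ) (s : Finset ℕ) (hs : ∀ p ∈ s, p.Prime) :
    jacobiSym a (∏ p ∈ s, p) = ∏ p ∈ s, jacobiSym a p := by
  classical
  induction s using Finset.induction_on with
  | empty => simp [jacobiSym.one_right]
  | insert b s hb ih =>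
    have h1 : b ≠ 0 := (hs b (mem_insert_self b s)).ne_zero
    have h2 : (∏ p ∈ s, p) ≠ 0 := prod_ne_zero_iff.2 fun p hp => (hs p (mem_insert_of_mem hp)).ne_zero
    have : NeZero b := ⟨h1⟩
    have : NeZero (∏ p ∈ s, p) := ⟨h2⟩
    rw [prod_insert hb, prod_insert hb, jacobiSym.mul_right,
      ih fun p hp => hs p (mem_insert_of_mem hp)]

/-- half of an odd number as an element of the field with two elements -/
def al (p : ℕ) : ZMod 2 := ((p / 2 : ℕ) : ZMod 2)

theorem al_prod (s : Finset ℕ) (hs : ∀ p ∈ s, Odd p) :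
    al (∏ p ∈ s, p) = ∑ p ∈ s, al p ∧ Odd (∏ p ∈ s, p) := by
  classical
  induction s using Finset.induction_on with
  | empty => exact ⟨by simp [al], by simp⟩
  | insert b s hb ih =>
    obtain ⟨i1, i2⟩ := ih fun p hp => hs p (mem_insert_of_mem hp)
    have h1 := hs b (mem_insert_self b s)
    rw [prod_insert hb, sum_insert hb]
    refine ⟨?_, h1.mul i2⟩
    rw [← i1]
    obtain ⟨x, hx⟩ := h1
    obtain ⟨y, hy⟩ := i2
    rw [hy, hx]
    unfold al
    have e1 : (2 * x + 1) * (2 * y + 1) / 2 = 2 * (x * y) + x + y := by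
      have : (2 * x + 1) * (2 * y + 1) = 2 * (2 * (x * y) + x + y) + 1 := by ring
      omega
    have e2 : (2 * x + 1) / 2 = x := by omega
    have e3 : (2 * y + 1) / 2 = y := by omega
    rw [e1, e2, e3]
    push_cast
    have : (2 : ZMod 2) = 0 := rfl
    rw [this]
    ring

theorem rec_law {p q : ℕ} (hp : p.Prime) (hq : q.Prime) (hp2 : Odd p) (hq2 : Odd q) (hne : p ≠ q) :
    sy q p + sy p q = al p * al q := by
  apply sg_inj
  have h1 : (q : ℤ).gcd p = 1 := by
    rw [Int.gcd_natCast_natCast]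
    exact (Nat.coprime_primes hq hp).2 (Ne.symm hne)
  have h2 : (p : ℤ).gcd q = 1 := by
    rw [Int.gcd_natCast_natCast]
    exact (Nat.coprime_primes hp hq).2 hne
  rw [sg_add, sg_sy h1, sg_sy h2]
  have h3 := jacobiSym.quadratic_reciprocity hp2 hq2
  have h4 : al p * al q = ((p / 2 * (q / 2) : ℕ) : ZMod 2) := by
    unfold al
    push_cast
    ring
  rw [h4, sg_nat, h3]
  have h5 : jacobiSym (q : ℤ) p * jacobiSym (q : ℤ) p = 1 := by
    have := jacobiSym.sq_one h1
    rw [sq] at this
    exact this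
  calc jacobiSym (q : ℤ) p * ((-1) ^ (p / 2 * (q / 2)) * jacobiSym (q : ℤ) p)
      = (-1) ^ (p / 2 * (q / 2)) * (jacobiSym (q : ℤ) p * jacobiSym (q : ℤ) p) := by ring
    _ = (-1) ^ (p / 2 * (q / 2)) := by rw [h5, mul_one]

/-- the primes of `n` -/
abbrev PP (n : ℕ) : Type := {p // p ∈ n.primeFactors}

/-- the linear map -/
def LL (n : ℕ) : (PP n → ZMod 2) →ₗ[ZMod 2] (PP n → ZMod 2) where
  toFun x p := ∑ q : PP n, (x q + x p) * sy (q : ℕ) p
  map_add' x y := by
    funext p
    simp only [Pi.add_apply]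
    rw [← sum_add_distrib]
    exact sum_congr rfl fun q _ => by ring
  map_smul' a x := by
    funext p
    simp only [Pi.smul_apply, smul_eq_mul, RingHom.id_apply]
    rw [mul_sum]
    exact sum_congr rfl fun q _ => by ring

theorem LL_apply (n : ℕ) (x : PP n → ZMod 2) (p : PP n) :
    LL n x p = ∑ q : PP n, (x q + x p) * sy (q : ℕ) p := rfl

theorem add_self2 (a : ZMod 2) : a + a = 0 := by revert a; decide

theorem LL_one (n : ℕ) : LL n 1 = 0 := by
  funext p
  rw [LL_apply]
  simp only [Pi.one_apply, Pi.zero_apply]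
  rw [add_self2]
  simp

theorem LL_sum {n : ℕ} (hn : Squarefree n) (h3 : n % 4 = 3) (x : PP n → ZMod 2) :
    ∑ p, LL n x p = 0 := by
  have hodd : ∀ p ∈ n.primeFactors, Odd p := by
    intro p hp
    have h1 := Nat.dvd_of_mem_primeFactors hp
    rcases Nat.even_or_odd p with h | h
    · exfalso
      have : 2 ∣ n := h.two_dvd.trans h1
      omega
    · exact h
  have hal : ∑ p : PP n, al p = 1 := by
    have h1 := (al_prod n.primeFactors hodd).1
    rw [Nat.prod_primeFactors_of_squarefree hn] at h1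
    have h2 : ∑ p : PP n, al p = ∑ p ∈ n.primeFactors, al p :=
      Finset.sum_coe_sort n.primeFactors al
    rw [h2, ← h1]
    unfold al
    have : ∃ m, n / 2 = 2 * m + 1 := ⟨n / 4, by omega⟩
    obtain ⟨m, hm⟩ := this
    rw [hm]
    push_cast
    have : (2 : ZMod 2) = 0 := rfl
    rw [this]
    ring
  have h1 : ∑ p, LL n x p = ∑ q : PP n, x q * ∑ p : PP n, (sy (q : ℕ) p + sy (p : ℕ) q) := by
    simp only [LL_apply, add_mul, sum_add_distrib, mul_add, mul_sum]
    rw [sum_comm]
  rw [h1]
  apply sum_eq_zero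
  intro q _
  have h2 : ∀ p : PP n, sy (q : ℕ) p + sy (p : ℕ) q =
      al q * al p + if p = q then al q else 0 := by
    intro p
    by_cases hpq : p = q
    · subst hpq
      rw [if_pos rfl, add_self2]
      have : ∀ a : ZMod 2, a * a + a = 0 := by decide
      rw [this]
    · rw [if_neg hpq, add_zero]
      have hne : (p : ℕ) ≠ q := fun h => hpq (Subtype.ext h)
      have := rec_law (Nat.prime_of_mem_primeFactors p.2) (Nat.prime_of_mem_primeFactors q.2)
        (hodd _ p.2) (hodd _ q.2) hne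
      rw [this, mul_comm]
  rw [sum_congr rfl fun p _ => h2 p, sum_add_distrib, ← mul_sum, hal, sum_ite_eq' univ q]
  simp only [mem_univ, if_true, mul_one]
  rw [add_self2, mul_zero]

/-- the divisor of a vector -/
def dv (n : ℕ) (x : PP n → ZMod 2) : ℕ := ∏ p ∈ univ.filter (fun p : PP n => x p = 1), (p : ℕ)

theorem dv_mul {n : ℕ} (hn : Squarefree n) (x : PP n → ZMod 2) : dv n x * dv n (x + 1) = n := by
  have h1 : univ.filter (fun p : PP n => (x + 1) p = 1) = univ.filter (fun p : PP n => ¬ x p = 1) := by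
    apply filter_congr
    intro p _
    simp only [Pi.add_apply, Pi.one_apply]
    have : ∀ a : ZMod 2, a + 1 = 1 ↔ ¬ a = 1 := by decide
    exact this _
  unfold dv
  rw [h1, Finset.prod_filter_mul_prod_filter_not, Finset.prod_coe_sort n.primeFactors (fun p => p),
    Nat.prod_primeFactors_of_squarefree hn]

theorem dv_dvd {n : ℕ} (hn : Squarefree n) (x : PP n → ZMod 2) : dv n x ∣ n :=
  ⟨_, (dv_mul hn x).symm⟩

theorem dv_div {n : ℕ} (hn : Squarefree n) (x : PP n → ZMod 2) : n / dv n x = dv n (x + 1) := by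
  have h := dv_mul hn x
  have h0 : 0 < dv n x := by
    rcases Nat.eq_zero_or_pos (dv n x) with h1 | h1
    · rw [h1, zero_mul] at h
      exact absurd h.symm hn.ne_zero
    · exact h1
  exact Nat.div_eq_of_eq_mul_right h0 h.symm

theorem dvd_dv {n : ℕ} (x : PP n → ZMod 2) (p : PP n) : (p : ℕ) ∣ dv n x ↔ x p = 1 := by
  have hp := Nat.prime_of_mem_primeFactors p.2
  unfold dv
  rw [Prime.dvd_finsetProd_iff hp.prime]
  constructor
  · rintro ⟨q, hq, hpq⟩
    have h1 := (Nat.prime_dvd_prime_iff_eq hp (Nat.prime_of_mem_primeFactors q.2)).1 hpq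
    have h2 : p = q := Subtype.ext h1
    rw [h2]
    exact (mem_filter.1 hq).2
  · intro h
    exact ⟨p, mem_filter.2 ⟨mem_univ _, h⟩, dvd_rfl⟩

/-- the condition on the divisor `d` of `n` -/
def Cnd (n : ℕ) (f : ℕ → ℤ) (d : ℕ) : Prop :=
  ∀ p ∈ n.primeFactors, jacobiSym (if p ∣ d then ((n / d : ℕ) : ℤ) else (d : ℤ)) p = f p

theorem jac_dv {n : ℕ} (x : PP n → ZMod 2) (p : PP n) (h : x p ≠ 1) :
    jacobiSym (dv n x : ℤ) p = sg (∑ q : PP n, x q * sy (q : ℕ) p) := by
  have hp := Nat.prime_of_mem_primeFactors p.2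
  unfold dv
  rw [Nat.cast_prod, jac_prod, sg_sum, prod_filter]
  apply prod_congr rfl
  intro q _
  split_ifs with hq
  · rw [hq, one_mul, sg_sy]
    rw [Int.gcd_natCast_natCast]
    refine (Nat.coprime_primes (Nat.prime_of_mem_primeFactors q.2) hp).2 ?_
    intro h1
    exact h (by rwa [Subtype.ext h1] at hq)
  · have : ∀ a : ZMod 2, ¬ a = 1 → a = 0 := by decide
    rw [this _ hq, zero_mul]
    rfl

theorem cnd_iff {n : ℕ} (hn : Squarefree n) (κ : PP n → ZMod 2) (f : ℕ → ℤ)
    (hf : ∀ p : PP n, f p = sg (κ p)) (x : PP n → ZMod 2) :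
    Cnd n f (dv n x) ↔ LL n x = κ := by
  have key : ∀ p : PP n,
      jacobiSym (if (p : ℕ) ∣ dv n x then ((n / dv n x : ℕ) : ℤ) else (dv n x : ℤ)) p =
        sg (LL n x p) := by
    intro p
    rw [LL_apply]
    by_cases h : x p = 1
    · rw [if_pos ((dvd_dv x p).2 h), dv_div hn, jac_dv]
      · congr 1
        apply sum_congr rfl
        intro q _
        rw [h]
        rfl
      · simp only [Pi.add_apply, Pi.one_apply, h]
        decide
    · rw [if_neg (fun h1 => h ((dvd_dv x p).1 h1)), jac_dv x p h]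
      congr 1
      have : ∀ a : ZMod 2, ¬ a = 1 → a = 0 := by decide
      rw [this _ h]
      exact sum_congr rfl fun q _ => by rw [add_zero]
  constructor
  · intro h
    funext p
    apply sg_inj
    rw [← key p, ← hf p]
    exact h p p.2
  · intro h p hp
    have h1 := key ⟨p, hp⟩
    have h2 := hf ⟨p, hp⟩
    simp only at h1 h2
    rw [h1, h2, h]

theorem dv_bij {n : ℕ} (hn : Squarefree n) (κ : PP n → ZMod 2) (f : ℕ → ℤ)
    (hf : ∀ p : PP n, f p = sg (κ p)) :
    Nat.card {x // LL n x = κ} = Nat.card {d : ℕ // d ∣ n ∧ Cnd n f d} := by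
  refine Nat.card_congr (Equiv.ofBijective
    (fun x => ⟨dv n x.1, dv_dvd hn x.1, (cnd_iff hn κ f hf x.1).2 x.2⟩) ⟨?_, ?_⟩)
  · intro x y hxy
    have h : dv n x.1 = dv n y.1 := congrArg Subtype.val hxy
    ext1
    funext p
    have h1 := dvd_dv x.1 p
    have h2 := dvd_dv y.1 p
    rw [h] at h1
    have h3 : x.1 p = 1 ↔ y.1 p = 1 := h1.symm.trans h2
    have : ∀ a b : ZMod 2, (a = 1 ↔ b = 1) → a = b := by decide
    exact this _ _ h3
  · rintro ⟨d, hd, hc⟩
    have hd0 : d ≠ 0 := fun h => hn.ne_zero (by rw [h] at hd; exact zero_dvd_iff.1 hd)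
    have hdd : dv n (fun p => if (p : ℕ) ∣ d then 1 else 0) = d := by
      unfold dv
      have h1 : univ.filter (fun p : PP n => (if (p : ℕ) ∣ d then (1 : ZMod 2) else 0) = 1) =
          univ.filter (fun p : PP n => (p : ℕ) ∣ d) := by
        apply filter_congr
        intro p _
        split_ifs with h <;> simp [h]
      rw [h1]
      have h2 : ∏ p ∈ univ.filter (fun p : PP n => (p : ℕ) ∣ d), (p : ℕ) =
          ∏ p ∈ n.primeFactors.filter (fun p => p ∣ d), p := by
        rw [prod_filter, prod_filter]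
        exact Finset.prod_coe_sort n.primeFactors (fun p => if p ∣ d then p else 1)
      rw [h2]
      have h3 : n.primeFactors.filter (fun p => p ∣ d) = d.primeFactors := by
        ext p
        simp only [mem_filter, Nat.mem_primeFactors]
        exact ⟨fun h => ⟨h.1.1, h.2, hd0⟩, fun h => ⟨⟨h.1, h.2.1.trans hd, hn.ne_zero⟩, h.2.1⟩⟩
      rw [h3]
      exact Nat.prod_primeFactors_of_squarefree (hn.squarefree_of_dvd hd)
    refine ⟨⟨fun p => if (p : ℕ) ∣ d then 1 else 0, ?_⟩, ?_⟩
    · rw [← cnd_iff hn κ f hf, hdd]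
      exact hc
    · ext1
      exact hdd

/-- no factorisation of the second kind: `n = b c` with `b` a square modulo (the primes of) `c` and `c` a
square modulo (the primes of) `b` only for `b = 1` or `c = 1` -/
def Qj (n : ℕ) : Prop :=
  ∀ b c : ℕ, b * c = n → (∀ p : ℕ, p.Prime → p ∣ c → jacobiSym b p = 1) →
    (∀ p : ℕ, p.Prime → p ∣ b → jacobiSym c p = 1) → b = 1 ∨ c = 1

theorem Qj_iff {n : ℕ} (hn : Squarefree n) : Qj n ↔ ∀ x, LL n x = 0 → x = 0 ∨ x = 1 := by
  have hf : ∀ p : PP n, (fun _ : ℕ => (1 : ℤ)) p = sg ((0 : PP n → ZMod 2) p) := fun _ => rfl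
  constructor
  · intro h x hx
    have h1 := (cnd_iff hn 0 (fun _ => 1) hf x).2 hx
    have h2 := dv_mul hn x
    have h3 := h (dv n x) (dv n (x + 1)) h2 ?_ ?_
    · rcases h3 with h3 | h3
      · left
        funext p
        by_contra hc
        have : ∀ a : ZMod 2, ¬ a = 0 → a = 1 := by decide
        have h4 := (dvd_dv x p).2 (this _ hc)
        rw [h3] at h4
        exact (Nat.prime_of_mem_primeFactors p.2).one_lt.ne' (Nat.dvd_one.1 h4)
      · right
        funext p
        by_contra hc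
        have : ∀ a : ZMod 2, ¬ a = 1 → a + 1 = 1 := by decide
        have h4 := (dvd_dv (x + 1) p).2 (this _ hc)
        rw [h3] at h4
        exact (Nat.prime_of_mem_primeFactors p.2).one_lt.ne' (Nat.dvd_one.1 h4)
    · intro p hp hpc
      have hpn : p ∈ n.primeFactors :=
        Nat.mem_primeFactors.2 ⟨hp, hpc.trans (dv_dvd hn _), hn.ne_zero⟩
      have h4 := h1 p hpn
      have h5 : ¬ p ∣ dv n x := by
        intro h6
        have h7 : p * p ∣ n := by
          rw [← h2]
          exact mul_dvd_mul h6 hpc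
        exact hp.one_lt.ne' (Nat.isUnit_iff.1 (hn p h7))
      rw [if_neg h5] at h4
      exact h4
    · intro p hp hpb
      have hpn : p ∈ n.primeFactors :=
        Nat.mem_primeFactors.2 ⟨hp, hpb.trans (dv_dvd hn _), hn.ne_zero⟩
      have h4 := h1 p hpn
      rw [if_pos hpb, dv_div hn] at h4
      exact h4
  · intro h b c hbc h1 h2
    have hbn : b ∣ n := ⟨c, hbc.symm⟩
    have hb0 : 0 < b := Nat.pos_of_ne_zero fun h0 => hn.ne_zero (by rw [← hbc, h0, zero_mul])
    have hc0 : n / b = c := Nat.div_eq_of_eq_mul_right hb0 hbc.symm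
    have h3 : Cnd n (fun _ => 1) b := by
      intro p hp
      have hpp := Nat.prime_of_mem_primeFactors hp
      by_cases hpb : p ∣ b
      · rw [if_pos hpb, hc0]
        exact h2 p hpp hpb
      · rw [if_neg hpb]
        have hpn := Nat.dvd_of_mem_primeFactors hp
        rw [← hbc] at hpn
        exact h1 p hpp (((Nat.Prime.dvd_mul hpp).1 hpn).resolve_left hpb)
    obtain ⟨x, hx⟩ : ∃ x : PP n → ZMod 2, dv n x = b := by
      refine ⟨fun p => if (p : ℕ) ∣ b then 1 else 0, ?_⟩
      unfold dv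
      have h1 : univ.filter (fun p : PP n => (if (p : ℕ) ∣ b then (1 : ZMod 2) else 0) = 1) =
          univ.filter (fun p : PP n => (p : ℕ) ∣ b) := by
        apply filter_congr
        intro p _
        split_ifs with h <;> simp [h]
      rw [h1]
      have h2 : ∏ p ∈ univ.filter (fun p : PP n => (p : ℕ) ∣ b), (p : ℕ) =
          ∏ p ∈ n.primeFactors.filter (fun p => p ∣ b), p := by
        rw [prod_filter, prod_filter]
        exact Finset.prod_coe_sort n.primeFactors (fun p => if p ∣ b then p else 1)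
      rw [h2]
      have h3 : n.primeFactors.filter (fun p => p ∣ b) = b.primeFactors := by
        ext p
        simp only [mem_filter, Nat.mem_primeFactors]
        exact ⟨fun h => ⟨h.1.1, h.2, hb0.ne'⟩, fun h => ⟨⟨h.1, h.2.1.trans hbn, hn.ne_zero⟩, h.2.1⟩⟩
      rw [h3]
      exact Nat.prod_primeFactors_of_squarefree (hn.squarefree_of_dvd hbn)
    rw [← hx] at h3
    rcases h x ((cnd_iff hn 0 (fun _ => 1) hf x).1 h3) with h4 | h4
    · left
      rw [← hx, h4]
      simp [dv]
    · right
      rw [← hc0, ← hx, dv_div hn, h4]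
      unfold dv
      have : ((1 : PP n → ZMod 2) + 1) = 0 := by
        funext p
        exact add_self2 1
      rw [this]
      simp

/-- **the count of the divisors** -/
theorem card_cnd {n : ℕ} (hn : Squarefree n) (h3 : n % 4 = 3) (h5 : ¬ 5 ∣ n)
    (hj : jacobiSym (-5) n = 1) :
    Nat.card {d : ℕ // d ∣ n ∧ Cnd n (fun p => jacobiSym (-5) p) d} % 4 = 2 ↔ Qj n := by
  have hn1 : n ≠ 1 := by omega
  have : Nonempty (PP n) := by
    obtain ⟨p, hp⟩ := Nat.nonempty_primeFactors.2 (show 1 < n by omega)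
    exact ⟨⟨p, hp⟩⟩
  have hg : ∀ p : PP n, (-5 : ℤ).gcd ((p : ℕ) : ℤ) = 1 := by
    intro p
    have hp := Nat.prime_of_mem_primeFactors p.2
    change Nat.gcd 5 (p : ℕ) = 1
    refine (Nat.coprime_primes Nat.prime_five hp).2 ?_
    intro h
    exact h5 (h ▸ Nat.dvd_of_mem_primeFactors p.2)
  let κ : PP n → ZMod 2 := fun p => sy (-5) p
  have hκ : ∀ p : PP n, (fun p : ℕ => jacobiSym (-5) p) p = sg (κ p) := by
    intro p
    exact (sg_sy (hg p)).symm
  have hκ0 : ∑ p, κ p = 0 := by
    apply sg_inj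
    rw [sg_sum]
    have h1 : ∏ p : PP n, sg (κ p) = ∏ p : PP n, jacobiSym (-5) (p : ℕ) :=
      prod_congr rfl fun p _ => (hκ p).symm
    rw [h1, Finset.prod_coe_sort n.primeFactors (fun p => jacobiSym (-5) p),
      ← jac_prod_right (-5) n.primeFactors fun p hp => Nat.prime_of_mem_primeFactors hp,
      Nat.prod_primeFactors_of_squarefree hn, hj]
    rfl
  rw [← dv_bij hn κ _ hκ, lin (LL n) (LL_one n) (LL_sum hn h3) κ hκ0, Qj_iff hn]

end Pool.Agent.N855.P15
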