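import Mathlib

/-!
# Linear algebra for the parity of a genus (project P15, helper855)

A linear system `L x = κ` over the field with two elements whose matrix has zero row sums and zero
column sums and whose right-hand side has sum zero has `2` modulo `4` solutions exactly if the
constant vectors are the only solutions of the homogeneous system.
-/

set_option autoImplicit false

open Finset

namespace Pool.Agent.N855.P15

theorem lin {V : Type} [Fintype V] [DecidableEq V] [Nonempty V]
    (L : (V → ZMod 2) →ₗ[ZMod 2] (V → ZMod 2)) (h1 : L 1 = 0) (h2 : ∀ x, ∑ v, L x v = 0)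
    (κ : V → ZMod 2) (hκ : ∑ v, κ v = 0) :
    Nat.card {x // L x = κ} % 4 = 2 ↔ ∀ x, L x = 0 → x = 0 ∨ x = 1 := by
  classical
  have h01 : (0 : V → ZMod 2) ≠ 1 := by
    intro h
    have := congrFun h (Classical.arbitrary V)
    simp at this
  have hcK : Nat.card (LinearMap.ker L) = 2 ^ Module.finrank (ZMod 2) (LinearMap.ker L) := by
    have := Module.natCard_eq_pow_finrank (K := ZMod 2) (V := LinearMap.ker L)
    simpa using this
  -- the solutions are a torsor of the kernel
  have htor : ∀ x0, L x0 = κ → Nat.card {x // L x = κ} = Nat.card (LinearMap.ker L) := by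
    intro x0 hx0
    refine Nat.card_congr ⟨fun x => ⟨x.1 - x0, ?_⟩, fun y => ⟨y.1 + x0, ?_⟩, ?_, ?_⟩
    · rw [LinearMap.mem_ker, map_sub, x.2, hx0, sub_self]
    · rw [map_add, LinearMap.mem_ker.mp y.2, hx0, zero_add]
    · intro x; ext1; simp
    · intro y; ext1; simp
  have hK2 : (∀ x, L x = 0 → x = 0 ∨ x = 1) ↔ Nat.card (LinearMap.ker L) = 2 := by
    constructor
    · intro h
      have : Nat.card (LinearMap.ker L) = Nat.card ({0, 1} : Finset (V → ZMod 2)) := by
        refine Nat.card_congr (Equiv.subtypeEquivRight fun x => ?_)
        rw [LinearMap.mem_ker]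
        simp only [Finset.mem_insert, Finset.mem_singleton]
        exact ⟨h x, fun hx => by rcases hx with rfl | rfl; exacts [map_zero _, h1]⟩
      rw [this, Nat.card_eq_fintype_card, Fintype.card_coe, Finset.card_pair h01]
    · intro h x hx
      by_contra hne
      push Not at hne
      have hinj : Function.Injective (fun i : Fin 3 =>
          (![⟨0, by simp⟩, ⟨1, h1⟩, ⟨x, hx⟩] i : LinearMap.ker L)) := by
        intro i j hij
        fin_cases i <;> fin_cases j <;> simp [Subtype.ext_iff] at hij ⊢
        · exact hne.1 hij.symm
        · exact hne.2 hij.symm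
        · exact hne.1 hij
        · exact hne.2 hij
      have := Nat.card_le_card_of_injective _ hinj
      rw [h, Nat.card_eq_fintype_card, Fintype.card_fin] at this
      omega
  rw [hK2]
  constructor
  · intro h
    have hne : Nonempty {x // L x = κ} := by
      by_contra hc
      rw [not_nonempty_iff] at hc
      rw [Nat.card_of_isEmpty] at h
      omega
    obtain ⟨x0, hx0⟩ := hne
    rw [htor x0 hx0, hcK] at h
    rw [hcK]
    rcases Nat.lt_or_ge (Module.finrank (ZMod 2) (LinearMap.ker L)) 2 with hk | hk
    · interval_cases hf : Module.finrank (ZMod 2) (LinearMap.ker L)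
      · omega
      · omega
    · obtain ⟨m, hm⟩ := Nat.exists_eq_add_of_le hk
      rw [hm, pow_add] at h
      omega
  · intro h
    have hf1 : Module.finrank (ZMod 2) (LinearMap.ker L) = 1 := by
      rw [hcK] at h
      exact Nat.pow_right_injective le_rfl (h.trans (pow_one 2).symm)
    let s : (V → ZMod 2) →ₗ[ZMod 2] ZMod 2 := ∑ v, LinearMap.proj v
    have hs : ∀ x, s x = ∑ v, x v := fun x => by simp [s]
    have hsur : Function.Surjective s := by
      intro a
      refine ⟨Pi.single (Classical.arbitrary V) a, ?_⟩
      rw [hs, Finset.sum_pi_single']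
      simp
    have hr := LinearMap.finrank_range_add_finrank_ker L
    have hr2 := LinearMap.finrank_range_add_finrank_ker s
    rw [LinearMap.range_eq_top.mpr hsur, finrank_top, Module.finrank_self] at hr2
    have hle : LinearMap.range L ≤ LinearMap.ker s := by
      rintro _ ⟨x, rfl⟩
      rw [LinearMap.mem_ker, hs]
      exact h2 x
    have heq : LinearMap.range L = LinearMap.ker s :=
      Submodule.eq_of_le_of_finrank_eq hle (by omega)
    have hmem : κ ∈ LinearMap.range L := by
      rw [heq, LinearMap.mem_ker, hs]
      exact hκ
    obtain ⟨x0, hx0⟩ := hmem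
    rw [htor x0 hx0, h]

end Pool.Agent.N855.P15
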