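import Pool.Agent.N855.P15.Sol

/-!
# The parity of the number of classes in the genus of `-5` (project P15, helper855)

`n` is squarefree, `3` modulo `4`, prime to `5`, with `(-5/n) = 1`.  The number of the reduced binary quadratic
forms `a x² + b x y + c y²` with `4 a c - b² = n` all of whose values `u` prime to `n` satisfy
`(u/p) = (-5/p)` for the primes `p ∣ n` is odd exactly if `n` has no factorisation of the second kind, that
is if there is no ideal class of order `4` in `ℚ(√-n)`.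
-/

set_option autoImplicit false

open Finset

namespace Pool.Agent.N855.P15

/-- reduced positive binary forms `(a, b, c)` with `4 a c - b² = n` -/
def IsRed (n : ℕ) (q : ℤ × ℤ × ℤ) : Prop :=
  0 < q.1 ∧ 4 * q.1 * q.2.2 - q.2.1 ^ 2 = n ∧ -q.1 < q.2.1 ∧ q.2.1 ≤ q.1 ∧ q.1 ≤ q.2.2 ∧
    (q.1 = q.2.2 → 0 ≤ q.2.1)

/-- the genus: the values prime to `p ∣ n` have the symbol of `-5` -/
def IsGen (n : ℕ) (q : ℤ × ℤ × ℤ) : Prop :=
  ∀ p ∈ n.primeFactors, jacobiSym (if (p : ℤ) ∣ q.1 then q.2.2 else q.1) p = jacobiSym (-5) p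

open Classical in
/-- the reduced forms of the genus -/
noncomputable def GF (n : ℕ) : Finset (ℤ × ℤ × ℤ) :=
  ((Icc (1 : ℤ) n) ×ˢ ((Icc (-(n : ℤ)) n) ×ˢ (Icc (1 : ℤ) n))).filter
    fun q => IsRed n q ∧ IsGen n q

theorem red_bd {n : ℕ} {q : ℤ × ℤ × ℤ} (h : IsRed n q) :
    q.1 ≤ n ∧ q.2.2 ≤ n := by
  obtain ⟨h1, h2, h3, h4, h5, h6⟩ := h
  have h7 : q.2.1 ^ 2 ≤ q.1 ^ 2 := by
    exact sq_le_sq' (by linarith) h4
  have h8 : 3 * (q.1 * q.2.2) ≤ n := by
    rw [← h2]
    nlinarith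
  constructor
  · nlinarith
  · nlinarith

theorem mem_GF {n : ℕ} {q : ℤ × ℤ × ℤ} : q ∈ GF n ↔ IsRed n q ∧ IsGen n q := by
  classical
  unfold GF
  constructor
  · exact fun h => (mem_filter.1 h).2
  · intro h
    refine mem_filter.2 ⟨?_, h⟩
    obtain ⟨b1, b2⟩ := red_bd h.1
    obtain ⟨h1, h2, h3, h4, h5, h6⟩ := h.1
    rw [mem_product, mem_product, mem_Icc, mem_Icc, mem_Icc]
    exact ⟨⟨by omega, b1⟩, ⟨by omega, by omega⟩, ⟨by omega, b2⟩⟩

/-- the ambiguous reduced forms -/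
def Amb (q : ℤ × ℤ × ℤ) : Prop := q.2.1 = q.1 ∨ q.1 = q.2.2

open Classical in
theorem card_amb {n : ℕ} (h3 : n % 4 = 3) :
    ((GF n).card : ZMod 2) = (((GF n).filter Amb).card : ZMod 2) := by
  have h0 : (GF n).card = ((GF n).filter Amb).card + ((GF n).filter fun q => ¬ Amb q).card :=
    (Finset.card_filter_add_card_filter_not _).symm
  have h1 : (((GF n).filter fun q => ¬ Amb q).card : ZMod 2) = 0 := by
    rw [Finset.card_eq_sum_ones, Nat.cast_sum]
    refine Finset.sum_involution (fun q _ => (q.1, -q.2.1, q.2.2)) ?_ ?_ ?_ ?_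
    · intro q _
      decide
    · intro q hq _ heq
      obtain ⟨h1, h2⟩ := mem_filter.1 hq
      obtain ⟨h4, -⟩ := mem_GF.1 h1
      obtain ⟨-, h5, -⟩ := h4
      have h6 : -q.2.1 = q.2.1 := congrArg (fun x : ℤ × ℤ × ℤ => x.2.1) heq
      have h7 : q.2.1 = 0 := by linarith
      rw [h7] at h5
      have h8 : (4 : ℤ) * (q.1 * q.2.2) = n := by linarith
      omega
    · intro q hq
      obtain ⟨h1, h2⟩ := mem_filter.1 hq
      obtain ⟨⟨g1, g2, g3, g4, g5, g6⟩, h5⟩ := mem_GF.1 h1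
      unfold Amb at h2
      push Not at h2
      refine mem_filter.2 ⟨mem_GF.2 ⟨⟨g1, ?_, ?_, ?_, g5, ?_⟩, h5⟩, ?_⟩
      · rw [neg_sq]; exact g2
      · have := lt_of_le_of_ne g4 h2.1
        simp only
        linarith
      · simp only
        linarith
      · intro h
        exact absurd h h2.2
      · rintro (h | h)
        · simp only at h
          linarith
        · exact h2.2 h
    · intro q _
      simp
  rw [h0, Nat.cast_add, h1, add_zero]

/-- the divisors of the factorisations -/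
noncomputable def DD (n : ℕ) : Finset ℕ := by
  classical
  exact n.divisors.filter fun d => Cnd n (fun p => jacobiSym (-5) p) d ∧ d * d < n

/-- the form of a factorisation -/
def fm (n d : ℕ) : ℤ × ℤ × ℤ :=
  if 3 * d ≤ n / d then ((d : ℤ), (d : ℤ), ((d + n / d : ℕ) : ℤ) / 4)
  else (((d + n / d : ℕ) : ℤ) / 4, (((n / d : ℕ) : ℤ) - d) / 2, ((d + n / d : ℕ) : ℤ) / 4)

/-- the factorisation of a form -/
def fd (q : ℤ × ℤ × ℤ) : ℕ := if q.2.1 = q.1 then q.1.toNat else (2 * q.1 - q.2.1).toNat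

theorem mod4 {d E : ℕ} (h : (d * E) % 4 = 3) : (d + E) % 4 = 0 ∧ d % 2 = 1 ∧ E % 2 = 1 := by
  have h1 : d % 4 = 0 ∨ d % 4 = 1 ∨ d % 4 = 2 ∨ d % 4 = 3 := by omega
  have h2 : E % 4 = 0 ∨ E % 4 = 1 ∨ E % 4 = 2 ∨ E % 4 = 3 := by omega
  rcases h1 with h1 | h1 | h1 | h1 <;> rcases h2 with h2 | h2 | h2 | h2 <;>
    rw [Nat.mul_mod, h1, h2] at h <;> omega

/-- the jacobi symbol ignores a factor four -/
theorem jac4 {p : ℕ} (hp : p.Prime) (hp2 : Odd p) (a : ℤ) : jacobiSym (4 * a) p = jacobiSym a p := by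
  rw [jacobiSym.mul_left]
  have h1 : (2 : ℤ).gcd p = 1 := by
    change Nat.gcd 2 p = 1
    refine (Nat.coprime_primes Nat.prime_two hp).2 ?_
    rintro rfl
    exact absurd hp2 (by decide)
  have h2 := jacobiSym.sq_one' h1
  norm_num at h2
  rw [h2, one_mul]

/-- the condition and the genus -/
theorem gen_iff {n d E : ℕ} (hn : Squarefree n) (h3 : n % 4 = 3) (h : d * E = n) (q : ℤ × ℤ × ℤ)
    (hq : (q.1 = d ∧ 4 * q.2.2 = d + E) ∨ (4 * q.1 = d + E ∧ q.2.2 = q.1)) :
    IsGen n q ↔ Cnd n (fun p => jacobiSym (-5) p) d := by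
  have hd0 : 0 < d := Nat.pos_of_ne_zero fun h0 => hn.ne_zero (by rw [← h, h0, zero_mul])
  have hE : n / d = E := Nat.div_eq_of_eq_mul_right hd0 h.symm
  unfold IsGen Cnd
  refine forall₂_congr fun p hp => ?_
  rw [hE]
  have hpp := Nat.prime_of_mem_primeFactors hp
  have hpn := Nat.dvd_of_mem_primeFactors hp
  have hp2 : Odd p := by
    rcases Nat.even_or_odd p with h | h
    · exfalso
      have : 2 ∣ n := h.two_dvd.trans hpn
      omega
    · exact h
  have hdE : (p ∣ d ∧ ¬ p ∣ E) ∨ (¬ p ∣ d ∧ p ∣ E) := by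
    by_cases h1 : p ∣ d
    · left
      refine ⟨h1, fun h2 => ?_⟩
      have h7 : p * p ∣ n := by
        rw [← h]
        exact mul_dvd_mul h1 h2
      exact hpp.one_lt.ne' (Nat.isUnit_iff.1 (hn p h7))
    · right
      refine ⟨h1, ?_⟩
      rw [← h] at hpn
      exact ((Nat.Prime.dvd_mul hpp).1 hpn).resolve_left h1
  have key : jacobiSym (if (p : ℤ) ∣ q.1 then q.2.2 else q.1) p =
      jacobiSym (if p ∣ d then (E : ℤ) else (d : ℤ)) p := by
    have hs : ∀ x y z : ℤ, 4 * x = y + z → (p : ℤ) ∣ y → jacobiSym x p = jacobiSym z p := by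
      intro x y z h1 h2
      rw [← jac4 hpp hp2 x, h1]
      have : (y + z) % (p : ℤ) = z % p := by
        obtain ⟨k, rfl⟩ := h2
        rw [add_comm, Int.add_mul_emod_self_left]
      exact jacobiSym.mod_left' this
    rcases hq with ⟨q1, q2⟩ | ⟨q1, q2⟩
    · rw [q1]
      rcases hdE with ⟨h1, h2⟩ | ⟨h1, h2⟩
      · rw [if_pos (Int.natCast_dvd_natCast.2 h1), if_pos h1]
        exact hs _ _ _ q2 (Int.natCast_dvd_natCast.2 h1)
      · rw [if_neg (fun h => h1 (Int.natCast_dvd_natCast.1 h)), if_neg h1]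
    · rw [q2, ite_self]
      rcases hdE with ⟨h1, h2⟩ | ⟨h1, h2⟩
      · rw [if_pos h1]
        exact hs _ _ _ q1 (Int.natCast_dvd_natCast.2 h1)
      · rw [if_neg h1]
        rw [add_comm] at q1
        exact hs _ _ _ q1 (Int.natCast_dvd_natCast.2 h2)
  rw [key]

theorem fm_mem {n d : ℕ} (hn : Squarefree n) (h3 : n % 4 = 3) (hd : d ∣ n)
    (hc : Cnd n (fun p => jacobiSym (-5) p) d) (hlt : d * d < n) :
    fm n d ∈ (GF n) ∧ Amb (fm n d) ∧ fd (fm n d) = d := by
  obtain ⟨E, hE⟩ := hd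
  have hd0 : 0 < d := Nat.pos_of_ne_zero fun h0 => hn.ne_zero (by rw [hE, h0, zero_mul])
  have hE' : n / d = E := Nat.div_eq_of_eq_mul_right hd0 hE
  have hdE : d < E := by
    rw [hE] at hlt
    exact lt_of_mul_lt_mul_left hlt hd0.le
  obtain ⟨m1, m2, m3⟩ := mod4 (show (d * E) % 4 = 3 by rw [← hE]; exact h3)
  obtain ⟨s, hs⟩ : ∃ s, d + E = 4 * s := ⟨(d + E) / 4, by omega⟩
  have hs' : (((d + E : ℕ) : ℤ)) / 4 = (s : ℤ) := by omega
  obtain ⟨r, hr⟩ : ∃ r, E = d + 2 * r := ⟨(E - d) / 2, by omega⟩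
  have hr' : ((E : ℤ) - d) / 2 = (r : ℤ) := by omega
  have hnz : (n : ℤ) = d * E := by rw [hE]; push_cast; ring
  unfold fm
  rw [hE', hs', hr']
  split_ifs with hle
  · refine ⟨mem_GF.2 ⟨⟨?_, ?_, ?_, ?_, ?_, ?_⟩, ?_⟩, ?_, ?_⟩
    · simp only
      exact_mod_cast hd0
    · simp only
      rw [hnz]
      have : (4 : ℤ) * s = d + E := by exact_mod_cast hs.symm
      linear_combination (d : ℤ) * this
    · simp only
      omega
    · exact le_rfl
    · simp only
      omega
    · intro _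
      simp only
      omega
    · refine (gen_iff hn h3 hE.symm _ (Or.inl ⟨rfl, ?_⟩)).2 hc
      simp only
      exact_mod_cast hs.symm
    · left
      rfl
    · unfold fd
      simp
  · have hsr : (2 : ℤ) * s - r = d := by omega
    refine ⟨mem_GF.2 ⟨⟨?_, ?_, ?_, ?_, ?_, ?_⟩, ?_⟩, ?_, ?_⟩
    · simp only
      omega
    · simp only
      rw [hnz]
      have h1 : (4 : ℤ) * s = d + E := by exact_mod_cast hs.symm
      have h2 : (E : ℤ) = d + 2 * r := by exact_mod_cast hr
      have h4 : (s : ℤ) * 2 = d + r := by linarith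
      rw [h2]
      linear_combination (2 * (s : ℤ) + (d + r)) * h4
    · simp only
      omega
    · simp only
      omega
    · exact le_rfl
    · intro _
      simp only
      omega
    · refine (gen_iff hn h3 hE.symm _ (Or.inr ⟨?_, rfl⟩)).2 hc
      simp only
      exact_mod_cast hs.symm
    · right
      rfl
    · unfold fd
      simp only
      rw [if_neg (by omega)]
      omega

theorem fd_mem {n : ℕ} {q : ℤ × ℤ × ℤ} (hn : Squarefree n) (h3 : n % 4 = 3) (hq : q ∈ GF n)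
    (ha : Amb q) :
    fd q ∣ n ∧ Cnd n (fun p => jacobiSym (-5) p) (fd q) ∧ fd q * fd q < n ∧ fm n (fd q) = q := by
  obtain ⟨⟨g1, g2, g3, g4, g5, g6⟩, hg⟩ := mem_GF.1 hq
  obtain ⟨a, b, c⟩ := q
  simp only at *
  unfold Amb at ha
  simp only at ha
  by_cases hab : b = a
  · subst hab
    have hfd : fd (b, b, c) = b.toNat := by simp [fd]
    rw [hfd]
    obtain ⟨d, rfl⟩ := Int.eq_ofNat_of_zero_le g1.le
    rw [Int.toNat_natCast]
    obtain ⟨c', rfl⟩ := Int.eq_ofNat_of_zero_le (g1.le.trans g5)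
    have hle : d ≤ c' := by exact_mod_cast g5
    have hd0 : 0 < d := by exact_mod_cast g1
    obtain ⟨E, hE⟩ : ∃ E, 4 * c' = d + E := ⟨4 * c' - d, by omega⟩
    have hn' : d * E = n := by
      have h1 : (4 : ℤ) * c' = d + E := by exact_mod_cast hE
      have : ((d * E : ℕ) : ℤ) = n := by
        push_cast
        rw [← g2]
        linear_combination (-(d : ℤ)) * h1
      exact_mod_cast this
    have hE' : n / d = E := Nat.div_eq_of_eq_mul_right hd0 hn'.symm
    refine ⟨⟨E, hn'.symm⟩, (gen_iff hn h3 hn' _ (Or.inl ⟨rfl, ?_⟩)).1 hg, ?_, ?_⟩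
    · simp only
      exact_mod_cast hE
    · rw [← hn']
      exact Nat.mul_lt_mul_of_pos_left (by omega) hd0
    · unfold fm
      rw [hE', if_pos (by omega), ← hE]
      simp
  · have hac : a = c := ha.resolve_left hab
    subst hac
    have hfd : fd (a, b, a) = (2 * a - b).toNat := by simp [fd, hab]
    rw [hfd]
    have hb0 : 0 ≤ b := g6 rfl
    have hba : b < a := lt_of_le_of_ne g4 hab
    obtain ⟨d, hd⟩ := Int.eq_ofNat_of_zero_le (show 0 ≤ 2 * a - b by linarith)
    obtain ⟨E, hE⟩ := Int.eq_ofNat_of_zero_le (show 0 ≤ 2 * a + b by linarith)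
    rw [hd, Int.toNat_natCast]
    have hd0 : 0 < d := by omega
    have hn' : d * E = n := by
      have : ((d * E : ℕ) : ℤ) = n := by
        push_cast
        rw [← g2, ← hd, ← hE]
        ring
      exact_mod_cast this
    have hE' : n / d = E := Nat.div_eq_of_eq_mul_right hd0 hn'.symm
    obtain ⟨m1, m2, m3⟩ := mod4 (show (d * E) % 4 = 3 by rw [hn']; exact h3)
    refine ⟨⟨E, hn'.symm⟩, (gen_iff hn h3 hn' _ (Or.inr ⟨?_, rfl⟩)).1 hg, ?_, ?_⟩
    · simp only
      linarith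
    · rw [← hn']
      refine Nat.mul_lt_mul_of_pos_left ?_ hd0
      rcases Nat.lt_or_ge d E with h | h
      · exact h
      · exfalso
        have hb : b = 0 := by omega
        have : (4 : ℤ) * (a * a) = n := by
          rw [← g2, hb]; ring
        omega
    · unfold fm
      rw [hE', if_neg (by omega)]
      have e1 : ((d + E : ℕ) : ℤ) / 4 = a := by
        push_cast
        omega
      have e2 : ((E : ℤ) - d) / 2 = b := by omega
      rw [e1, e2]

open Classical in
theorem card_DD {n : ℕ} (hn : Squarefree n) (h3 : n % 4 = 3) :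
    ((GF n).filter Amb).card = (DD n).card := by
  refine Finset.card_nbij' fd (fm n) ?_ ?_ ?_ ?_
  · intro q hq
    obtain ⟨h1, h2⟩ := mem_filter.1 hq
    obtain ⟨k1, k2, k3, k4⟩ := fd_mem hn h3 h1 h2
    unfold DD
    exact mem_filter.2 ⟨Nat.mem_divisors.2 ⟨k1, hn.ne_zero⟩, k2, k3⟩
  · intro d hd
    unfold DD at hd
    obtain ⟨h1, h2, h4⟩ := mem_filter.1 hd
    obtain ⟨k1, k2, k3⟩ := fm_mem hn h3 (Nat.dvd_of_mem_divisors h1) h2 h4
    exact mem_filter.2 ⟨k1, k2⟩
  · intro q hq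
    obtain ⟨h1, h2⟩ := mem_filter.1 hq
    exact (fd_mem hn h3 h1 h2).2.2.2
  · intro d hd
    unfold DD at hd
    obtain ⟨h1, h2, h4⟩ := mem_filter.1 hd
    exact (fm_mem hn h3 (Nat.dvd_of_mem_divisors h1) h2 h4).2.2

theorem cnd_symm {n d E : ℕ} (hn : Squarefree n) (h : d * E = n) (f : ℕ → ℤ) (hc : Cnd n f d) :
    Cnd n f E := by
  have hd0 : 0 < d := Nat.pos_of_ne_zero fun h0 => hn.ne_zero (by rw [← h, h0, zero_mul])
  have hE0 : 0 < E := Nat.pos_of_ne_zero fun h0 => hn.ne_zero (by rw [← h, h0, mul_zero])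
  have h1 : n / d = E := Nat.div_eq_of_eq_mul_right hd0 h.symm
  have h2 : n / E = d := Nat.div_eq_of_eq_mul_left hE0 h.symm
  intro p hp
  have h4 := hc p hp
  rw [h1] at h4
  rw [h2]
  have hpp := Nat.prime_of_mem_primeFactors hp
  have hpn := Nat.dvd_of_mem_primeFactors hp
  by_cases hpd : p ∣ d
  · rw [if_pos hpd] at h4
    rw [if_neg]
    · exact h4
    · intro h5
      have h7 : p * p ∣ n := by
        rw [← h]
        exact mul_dvd_mul hpd h5
      exact hpp.one_lt.ne' (Nat.isUnit_iff.1 (hn p h7))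
  · rw [if_neg hpd] at h4
    rw [if_pos]
    · exact h4
    · rw [← h] at hpn
      exact ((Nat.Prime.dvd_mul hpp).1 hpn).resolve_left hpd

open Classical in
theorem card_two {n : ℕ} (hn : Squarefree n) (h3 : n % 4 = 3) :
    Nat.card {d : ℕ // d ∣ n ∧ Cnd n (fun p => jacobiSym (-5) p) d} = 2 * (DD n).card := by
  have h1 : Nat.card {d : ℕ // d ∣ n ∧ Cnd n (fun p => jacobiSym (-5) p) d} =
      (n.divisors.filter fun d => Cnd n (fun p => jacobiSym (-5) p) d).card := by
    refine Nat.subtype_card _ fun d => ?_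
    rw [mem_filter, Nat.mem_divisors]
    exact ⟨fun h => ⟨h.1.1, h.2⟩, fun h => ⟨⟨h.1, hn.ne_zero⟩, h.2⟩⟩
  have h2 : (n.divisors.filter fun d => Cnd n (fun p => jacobiSym (-5) p) d).card =
      (DD n).card + (n.divisors.filter fun d => Cnd n (fun p => jacobiSym (-5) p) d ∧
        ¬ d * d < n).card := by
    unfold DD
    rw [← Finset.filter_filter, ← Finset.filter_filter]
    exact (Finset.card_filter_add_card_filter_not _).symm
  have h4 : (DD n).card = (n.divisors.filter fun d => Cnd n (fun p => jacobiSym (-5) p) d ∧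
        ¬ d * d < n).card := by
    have hsq : ∀ d, d * d ≠ n := by
      intro d hd
      have : d % 4 = 0 ∨ d % 4 = 1 ∨ d % 4 = 2 ∨ d % 4 = 3 := by omega
      rcases this with h | h | h | h <;> rw [← hd, Nat.mul_mod, h] at h3 <;> omega
    refine Finset.card_nbij' (fun d => n / d) (fun d => n / d) ?_ ?_ ?_ ?_
    · intro d hd
      unfold DD at hd
      obtain ⟨h1, h2, h4⟩ := mem_filter.1 hd
      obtain ⟨E, hE⟩ := Nat.dvd_of_mem_divisors h1
      have hd0 : 0 < d := Nat.pos_of_ne_zero fun h0 => hn.ne_zero (by rw [hE, h0, zero_mul])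
      have hE' : n / d = E := Nat.div_eq_of_eq_mul_right hd0 hE
      simp only
      rw [hE']
      refine mem_filter.2 ⟨Nat.mem_divisors.2 ⟨⟨d, by rw [hE, mul_comm]⟩, hn.ne_zero⟩,
        cnd_symm hn hE.symm _ h2, ?_⟩
      rw [not_lt]
      have hdE : d < E := by
        rw [hE] at h4
        exact lt_of_mul_lt_mul_left h4 hd0.le
      rw [hE]
      exact Nat.mul_le_mul_right E hdE.le
    · intro d hd
      obtain ⟨h1, h2, h4⟩ := mem_filter.1 hd
      obtain ⟨E, hE⟩ := Nat.dvd_of_mem_divisors h1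
      have hd0 : 0 < d := Nat.pos_of_ne_zero fun h0 => hn.ne_zero (by rw [hE, h0, zero_mul])
      have hE' : n / d = E := Nat.div_eq_of_eq_mul_right hd0 hE
      simp only
      rw [hE']
      unfold DD
      refine mem_filter.2 ⟨Nat.mem_divisors.2 ⟨⟨d, by rw [hE, mul_comm]⟩, hn.ne_zero⟩,
        cnd_symm hn hE.symm _ h2, ?_⟩
      have h5 : n < d * d := lt_of_le_of_ne (not_lt.1 h4) (Ne.symm (hsq d))
      rw [hE] at h5 ⊢
      have hdE : E < d := lt_of_mul_lt_mul_left h5 hd0.le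
      have hE0 : 0 < E := Nat.pos_of_ne_zero fun h0 => hn.ne_zero (by rw [hE, h0, mul_zero])
      exact Nat.mul_lt_mul_of_pos_right hdE hE0
    · intro d hd
      unfold DD at hd
      obtain ⟨h1, h2, h4⟩ := mem_filter.1 hd
      exact Nat.div_div_self (Nat.dvd_of_mem_divisors h1) hn.ne_zero
    · intro d hd
      obtain ⟨h1, h2, h4⟩ := mem_filter.1 hd
      exact Nat.div_div_self (Nat.dvd_of_mem_divisors h1) hn.ne_zero
  rw [h1, h2, ← h4]
  ring

/-- **the parity of the number of the classes in the genus of `-5`** -/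
theorem par {n : ℕ} (hn : Squarefree n) (h3 : n % 4 = 3) (h5 : ¬ 5 ∣ n)
    (hj : jacobiSym (-5) n = 1) : Odd (GF n).card ↔ Qj n := by
  classical
  rw [← card_cnd hn h3 h5 hj, card_two hn h3, ← card_DD hn h3]
  have h := card_amb h3
  rw [ZMod.natCast_eq_natCast_iff'] at h
  rw [Nat.odd_iff, h]
  omega

end Pool.Agent.N855.P15
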